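import Mathlib
import Pool.Agent.helper25.B2.GDefs
import Pool.Agent.helper98.B2.GA

/-! # B2 wave 4, module T9b: the complex form of a nonreal root is closed -/

set_option autoImplicit false

namespace Pool.Agent.helper68.B2

open scoped ContDiff Topology Matrix
open Matrix Set Filter

/-- complex matrices and vectors -/
abbrev T9b_M := Matrix (Fin 3) (Fin 3) ℂ
abbrev T9b_V := Fin 3 → ℂ

/-- complexification as a linear map -/
noncomputable def T9b_cL : M3 →ₗ[ℝ] T9b_M where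
  toFun A := cM A
  map_add' A B := by ext i j; simp [cM]
  map_smul' c A := by ext i j; simp [cM]

theorem T9b_cL_apply (A : M3) : T9b_cL A = cM A := rfl

theorem T9b_cM_mul (A B : M3) : cM (A * B) = cM A * cM B := by
  unfold cM
  exact Matrix.map_mul

theorem T9b_cM_add (A B : M3) : cM (A + B) = cM A + cM B := T9b_cL.map_add A B

theorem T9b_cM_sub (A B : M3) : cM (A - B) = cM A - cM B := T9b_cL.map_sub A B

theorem T9b_cM_transpose (A : M3) : cM Aᵀ = (cM A)ᵀ := by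
  ext i j; simp [cM]

/-- complexification of a real vector -/
def T9b_cV (v : V3) : T9b_V := fun i => (v i : ℂ)

theorem T9b_cM_mulVec (A : M3) (v : V3) : cM A *ᵥ T9b_cV v = T9b_cV (A *ᵥ v) := by
  ext i
  simp [cM, T9b_cV, Matrix.mulVec, dotProduct]

theorem T9b_cM_vecMulVec (u w : V3) : cM (vecMulVec u w) = vecMulVec (T9b_cV u) (T9b_cV w) := by
  ext i j
  simp [cM, T9b_cV, Matrix.vecMulVec_apply]

theorem T9b_cM_odot (G : M3) (u w : V3) :
    cM (odot G u w) = odot (cM G) (T9b_cV u) (T9b_cV w) := by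
  unfold odot
  rw [T9b_cM_add, T9b_cM_vecMulVec, T9b_cM_vecMulVec, T9b_cM_mulVec, T9b_cM_mulVec]

theorem T9b_bil_mulVec : IsBilinearMap ℝ (fun (A : T9b_M) (V : T9b_V) => A *ᵥ V) where
  add_left _ _ _ := by simp [add_mulVec]
  smul_left _ _ _ := by simp [smul_mulVec]
  add_right _ _ _ := by simp [mulVec_add]
  smul_right _ _ _ := by simp [mulVec_smul]

theorem T9b_bil_dot : IsBilinearMap ℝ (fun (V W : T9b_V) => V ⬝ᵥ W) where
  add_left _ _ _ := by simp [add_dotProduct]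
  smul_left _ _ _ := by simp
  add_right _ _ _ := by simp [dotProduct_add]
  smul_right _ _ _ := by simp

theorem T9b_bil_mul : IsBilinearMap ℝ (fun A B : T9b_M => A * B) where
  add_left _ _ _ := by simp [add_mul]
  smul_left _ _ _ := by simp
  add_right _ _ _ := by simp [mul_add]
  smul_right _ _ _ := by simp

theorem T9b_bil_cmul : IsBilinearMap ℝ (fun a b : ℂ => a * b) where
  add_left _ _ _ := by simp [add_mul]
  smul_left _ _ _ := by simp [mul_assoc]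
  add_right _ _ _ := by simp [mul_add]
  smul_right _ _ _ := by simp [mul_left_comm]

/-- the scalar matrices as a linear map -/
noncomputable def T9b_one : ℂ →ₗ[ℝ] T9b_M where
  toFun c := c • (1 : T9b_M)
  map_add' a b := by rw [add_smul]
  map_smul' c a := by
    rw [RingHom.id_apply, smul_assoc]

noncomputable def T9b_tr : T9b_M →ₗ[ℝ] ℂ where
  toFun A := A.trace
  map_add' a b := by rw [trace_add]
  map_smul' c a := by rw [trace_smul]; rfl

theorem T9b_adj_trace (A : T9b_M) : A.adjugate.trace = (A.trace * A.trace - (A * A).trace) / 2 := by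
  rw [Matrix.adjugate_fin_three]
  simp [Matrix.trace_fin_three, Matrix.mul_apply, Fin.sum_univ_three]
  ring

/-- Cayley-Hamilton for the adjugate of a 3 by 3 matrix -/
theorem T9b_adj (A : T9b_M) :
    A.adjugate = A * A - A.trace • A + A.adjugate.trace • (1 : T9b_M) := by
  rw [Matrix.adjugate_fin_three]
  ext i j
  fin_cases i <;> fin_cases j <;>
  · simp [Matrix.mul_apply, Fin.sum_univ_three, Matrix.trace_fin_three]
    ring

theorem T9b_CH (A : T9b_M) (v : T9b_V) :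
    A *ᵥ (A *ᵥ v) - A.trace • (A *ᵥ v) + A.adjugate.trace • v = A.adjugate *ᵥ v := by
  have h := congrArg (fun M : T9b_M => M *ᵥ v) (T9b_adj A)
  simp only [add_mulVec, sub_mulVec, smul_mulVec, one_mulVec] at h
  rw [h, mulVec_mulVec]

theorem T9b_vmv (u w v : T9b_V) : vecMulVec u w *ᵥ v = (w ⬝ᵥ v) • u := by
  ext i
  simp [Matrix.mulVec, Matrix.vecMulVec_apply, dotProduct, Finset.sum_mul]
  refine Finset.sum_congr rfl fun j _ => ?_
  ring

/-- the final symmetry -/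
theorem T9b_alg {N θ a ti tj li lj mi mj s r pij pji ni nj di dj qi qj : ℂ} (hN : N ≠ 0)
    (e1 : N * pij = qi * tj + θ * (di * tj - a * s - ti * lj) - (-(a * r) - ti * mj))
    (e1' : N * pji = qj * ti + θ * (dj * ti - a * s - tj * li) - (-(a * r) - tj * mi))
    (e2 : ni = 2 * qi) (e2' : nj = 2 * qj)
    (e3 : ni = 2 * θ * li - 2 * mi - 2 * di * θ) (e3' : nj = 2 * θ * lj - 2 * mj - 2 * dj * θ)
    (e4 : di * N = 2 * a * ti) (e4' : dj * N = 2 * a * tj) :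
    N * pij - tj * ni = N * pji - ti * nj := by
  have h : di * tj = dj * ti := by
    apply mul_right_cancel₀ hN
    linear_combination tj * e4 - ti * e4'
  have hqi : qi = θ * li - mi - di * θ := by linear_combination (-1 / 2 : ℂ) * e2 + (1 / 2 : ℂ) * e3
  have hqj : qj = θ * lj - mj - dj * θ := by
    linear_combination (-1 / 2 : ℂ) * e2' + (1 / 2 : ℂ) * e3'
  rw [e2, e2', e1, e1', hqi, hqj]
  linear_combination 2 * θ * h

/-- the bilinear form of a complex matrix -/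
def T9b_g (G : T9b_M) (u w : T9b_V) : ℂ := u ⬝ᵥ (G *ᵥ w)

section
variable (G : T9b_M) (u u' w w' : T9b_V) (c : ℂ)

theorem T9b_g_add_left : T9b_g G (u + u') w = T9b_g G u w + T9b_g G u' w := by
  unfold T9b_g; rw [add_dotProduct]

theorem T9b_g_add_right : T9b_g G u (w + w') = T9b_g G u w + T9b_g G u w' := by
  unfold T9b_g; rw [mulVec_add, dotProduct_add]

theorem T9b_g_sub_left : T9b_g G (u - u') w = T9b_g G u w - T9b_g G u' w := by
  unfold T9b_g; rw [sub_dotProduct]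

theorem T9b_g_smul_left : T9b_g G (c • u) w = c * T9b_g G u w := by
  unfold T9b_g; rw [smul_dotProduct, smul_eq_mul]

theorem T9b_g_smul_right : T9b_g G u (c • w) = c * T9b_g G u w := by
  unfold T9b_g; rw [mulVec_smul, dotProduct_smul, smul_eq_mul]

theorem T9b_g_zero_left : T9b_g G 0 w = 0 := by
  unfold T9b_g; rw [zero_dotProduct]

theorem T9b_g_symm {G : T9b_M} (hG : Gᵀ = G) (u w : T9b_V) : T9b_g G u w = T9b_g G w u := by
  unfold T9b_g
  rw [dotProduct_mulVec, dotProduct_comm, ← mulVec_transpose, hG]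

theorem T9b_g_sa {G A : T9b_M} (h : Aᵀ * G = G * A) (u w : T9b_V) :
    T9b_g G (A *ᵥ u) w = T9b_g G u (A *ᵥ w) := by
  unfold T9b_g
  rw [mulVec_mulVec, ← h, ← mulVec_mulVec, ← vecMul_transpose, ← dotProduct_mulVec]

end

theorem T9b_odot_mulVec {G : T9b_M} (hG : Gᵀ = G) (u w v : T9b_V) :
    odot G u w *ᵥ v = T9b_g G w v • u + T9b_g G u v • w := by
  unfold odot
  rw [add_mulVec, T9b_vmv, T9b_vmv, T9b_g_symm hG w v, T9b_g_symm hG u v]
  unfold T9b_g
  rw [dotProduct_comm, dotProduct_comm (G *ᵥ u)]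

theorem T9b_trace_mul_odot {G A : T9b_M} (hA : Aᵀ * G = G * A) (hG : Gᵀ = G) (u w : T9b_V) :
    (A * odot G u w).trace = 2 * T9b_g G (A *ᵥ w) u := by
  unfold odot
  rw [mul_add, trace_add, mul_vecMulVec, mul_vecMulVec, trace_vecMulVec, trace_vecMulVec]
  have h1 : (A *ᵥ u) ⬝ᵥ (G *ᵥ w) = T9b_g G (A *ᵥ w) u := by
    change T9b_g G (A *ᵥ u) w = _
    rw [T9b_g_sa hA, T9b_g_symm hG]
  rw [h1]
  unfold T9b_g
  ring

/-- the form is closed -/
theorem T9_closed (S : Geo) {W : Set E4} (hW : OCone W) {z : E4 → ℂ} {T : E4 → Fin 3 → ℂ} (hzh : Hom z)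
    (hTh : Hom T) (hz : ContDiffOn ℝ ∞ z W) (hT : ContDiffOn ℝ ∞ T W)
    (hd : ∀ x ∈ W, (cM (S.L x) - z x • (1 : Matrix (Fin 3) (Fin 3) ℂ)).det = 0)
    (htr : ∀ x ∈ W, (cM (S.L x) - z x • (1 : Matrix (Fin 3) (Fin 3) ℂ)).adjugate.trace ≠ 0)
    (hadj : ∀ x ∈ W, (cM (S.L x) - z x • (1 : Matrix (Fin 3) (Fin 3) ℂ)).adjugate =
      vecMulVec (T x) (cM (S.G x) *ᵥ T x)) {x : E4} (hx : x ∈ W) (i j : Fin 3) :
    Dv (fun y => (cM (S.G y) *ᵥ T y) j / (T y ⬝ᵥ (cM (S.G y) *ᵥ T y))) (ee i) x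
      - Dv (fun y => (cM (S.G y) *ᵥ T y) i / (T y ⬝ᵥ (cM (S.G y) *ᵥ T y))) (ee j) x
      = 2 * ∑ k, (eps i j k : ℂ) * ((cM (S.G x) *ᵥ T x) k / (T x ⬝ᵥ (cM (S.G x) *ᵥ T x))) := by
  have hx0 : x ≠ 0 := by rintro rfl; exact hW.zero hx
  have hWn : W ∈ 𝓝 x := hW.isOpen.mem_nhds hx
  have hTd : DifferentiableAt ℝ T x := (hT.contDiffAt hWn).differentiableAt (by simp)
  have hzd : DifferentiableAt ℝ z x := (hz.contDiffAt hWn).differentiableAt (by simp)
  have hGd : DifferentiableAt ℝ S.G x := S.GA_diffG hx0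
  have hLd : DifferentiableAt ℝ S.L x := S.GA_diffL hx0
  -- derivatives of the complexified fields
  have HG : ∀ v, B0b_H v x (fun y => cM (S.G y)) (cM (Dv S.G v x)) := fun v =>
    (B0b_H_of hGd).lin T9b_cL
  have HL : ∀ v, B0b_H v x (fun y => cM (S.L y)) (cM (Dv S.L v x)) := fun v =>
    (B0b_H_of hLd).lin T9b_cL
  have HT : ∀ v, B0b_H v x T (Dv T v x) := fun v => B0b_H_of hTd
  have Hz : ∀ v, B0b_H v x z (Dv z v x) := fun v => B0b_H_of hzd
  have HGT : ∀ v, B0b_H v x (fun y => cM (S.G y) *ᵥ T y)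
      (cM (Dv S.G v x) *ᵥ T x + cM (S.G x) *ᵥ Dv T v x) := fun v =>
    (HG v).bilin T9b_bil_mulVec (HT v)
  have HN : ∀ v, B0b_H v x (fun y => T y ⬝ᵥ (cM (S.G y) *ᵥ T y))
      (Dv T v x ⬝ᵥ (cM (S.G x) *ᵥ T x)
        + T x ⬝ᵥ (cM (Dv S.G v x) *ᵥ T x + cM (S.G x) *ᵥ Dv T v x)) := fun v =>
    (HT v).bilin T9b_bil_dot (HGT v)
  have HA : ∀ v, B0b_H v x (fun y => cM (S.L y) - z y • (1 : T9b_M))
      (cM (Dv S.L v x) - Dv z v x • (1 : T9b_M)) := fun v => (HL v).sub ((Hz v).lin T9b_one)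
  -- pointwise facts near `x`
  have hNtr : ∀ y ∈ W, T y ⬝ᵥ (cM (S.G y) *ᵥ T y) =
      (cM (S.L y) - z y • (1 : T9b_M)).adjugate.trace := by
    intro y hy
    rw [hadj y hy, Matrix.trace_vecMulVec]
  have hAT : ∀ y ∈ W, (cM (S.L y) - z y • (1 : T9b_M)) *ᵥ T y = 0 := by
    intro y hy
    have h1 : (cM (S.L y) - z y • (1 : T9b_M)) * vecMulVec (T y) (cM (S.G y) *ᵥ T y) = 0 := by
      rw [← hadj y hy, Matrix.mul_adjugate, hd y hy, zero_smul]
    rw [Matrix.mul_vecMulVec] at h1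
    have h2 : T y ⬝ᵥ (cM (S.G y) *ᵥ T y) ≠ 0 := by
      rw [hNtr y hy]; exact htr y hy
    have h3 : ∃ b, (cM (S.G y) *ᵥ T y) b ≠ 0 := by
      by_contra hcon
      push Not at hcon
      apply h2
      have : cM (S.G y) *ᵥ T y = 0 := funext hcon
      rw [this, dotProduct_zero]
    obtain ⟨b, hb⟩ := h3
    funext a
    have h4 := congrFun (congrFun h1 a) b
    rw [vecMulVec_apply] at h4
    have h5 := mul_eq_zero.1 h4
    rcases h5 with h5 | h5
    · exact h5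
    · exact absurd h5 hb
  set G : T9b_M := cM (S.G x) with hG
  set A : T9b_M := cM (S.L x) - z x • (1 : T9b_M) with hA
  set t : T9b_V := T x with ht
  set lam : T9b_V := T9b_cV (S.lam x) with hlam
  set N : ℂ := t ⬝ᵥ (G *ᵥ t) with hNdef
  have hGs : Gᵀ = G := by rw [hG, ← T9b_cM_transpose, S.symm x hx0]
  have hAsa : Aᵀ * G = G * A := by
    have h1 := congrArg cM (S.GA_L hx0)
    rw [T9b_cM_mul, T9b_cM_mul, T9b_cM_transpose] at h1
    rw [hA, hG, transpose_sub, sub_mul, h1, mul_sub, transpose_smul, transpose_one, smul_mul_assoc,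
      one_mul, mul_smul_comm, mul_one]
  have hN0 : N ≠ 0 := by
    rw [hNdef, ht, hG, hNtr x hx]; exact htr x hx
  have hAt : A *ᵥ t = 0 := hAT x hx
  -- the covariant derivative of `T`
  set P : Fin 3 → T9b_V := fun i => Dv T (ee i) x + cM (S.Γ i x) *ᵥ t with hP
  set e : Fin 3 → T9b_V := fun i => T9b_cV (ee i) with he
  set d : Fin 3 → ℂ := fun i => Dv z (ee i) x with hdd
  have hDL : ∀ i, cM (Dv S.L (ee i) x) = odot G (e i) lam
      - (cM (S.Γ i x) * cM (S.L x) - cM (S.L x) * cM (S.Γ i x)) := by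
    intro i
    have h1 := congrArg cM (eq_sub_of_add_eq (S.main x hx0 i))
    rw [h1, T9b_cM_sub, T9b_cM_odot, T9b_cM_sub, T9b_cM_mul, T9b_cM_mul]
  have hDG : ∀ i, cM (Dv S.G (ee i) x) = (cM (S.Γ i x))ᵀ * G + G * cM (S.Γ i x) := by
    intro i
    rw [S.metric x hx0 i, T9b_cM_add, T9b_cM_mul, T9b_cM_mul, T9b_cM_transpose]
  have hcL : cM (S.L x) = A + z x • (1 : T9b_M) := by rw [hA]; abel
  have hcomm : ∀ i, cM (S.Γ i x) * cM (S.L x) - cM (S.L x) * cM (S.Γ i x) =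
      cM (S.Γ i x) * A - A * cM (S.Γ i x) := by
    intro i
    rw [hcL, mul_add, add_mul, mul_smul_comm, smul_mul_assoc, mul_one, one_mul]
    abel
  -- step 1
  have hAP : ∀ i, A *ᵥ P i = d i • t - (T9b_g G lam t • e i + T9b_g G (e i) t • lam) := by
    intro i
    have h1 := ((HA (ee i)).bilin T9b_bil_mulVec (HT (ee i))).eq
    have h2 : (fun y => (cM (S.L y) - z y • (1 : T9b_M)) *ᵥ T y) =ᶠ[𝓝 x] fun _ => (0 : T9b_V) := by
      filter_upwards [hWn] with y hy using hAT y hy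
    have h3 : Dv (fun y => (cM (S.L y) - z y • (1 : T9b_M)) *ᵥ T y) (ee i) x = 0 := by
      rw [B0b_Dv_congr h2]
      simp [Dv]
    rw [h3] at h1
    have h4 : (cM (Dv S.L (ee i) x) - Dv z (ee i) x • (1 : T9b_M)) *ᵥ t
        = odot G (e i) lam *ᵥ t + A *ᵥ (cM (S.Γ i x) *ᵥ t) - d i • t := by
      rw [hDL i, hcomm i, sub_mulVec, sub_mulVec, sub_mulVec, smul_mulVec, one_mulVec,
        ← mulVec_mulVec, ← mulVec_mulVec, hAt, mulVec_zero]
      abel
    have h5 : A *ᵥ P i = A *ᵥ Dv T (ee i) x + A *ᵥ (cM (S.Γ i x) *ᵥ t) := mulVec_add _ _ _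
    change 0 = (cM (Dv S.L (ee i) x) - Dv z (ee i) x • (1 : T9b_M)) *ᵥ t + A *ᵥ Dv T (ee i) x at h1
    rw [h4, T9b_odot_mulVec hGs] at h1
    rw [h5]
    have h6 := sub_eq_zero.2 h1
    rw [← sub_eq_zero, ← neg_eq_zero, ← h6]
    abel
  -- step 2
  have hdGN : ∀ i, Dv (fun y => T y ⬝ᵥ (cM (S.G y) *ᵥ T y)) (ee i) x = 2 * T9b_g G (P i) t := by
    intro i
    rw [(HN (ee i)).eq, hDG i]
    change Dv T (ee i) x ⬝ᵥ (G *ᵥ t) + t ⬝ᵥ (((cM (S.Γ i x))ᵀ * G + G * cM (S.Γ i x)) *ᵥ t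
      + G *ᵥ Dv T (ee i) x) = 2 * T9b_g G (Dv T (ee i) x + cM (S.Γ i x) *ᵥ t) t
    have h1 : t ⬝ᵥ (((cM (S.Γ i x))ᵀ * G) *ᵥ t) = T9b_g G (cM (S.Γ i x) *ᵥ t) t := by
      unfold T9b_g
      rw [← mulVec_mulVec, dotProduct_mulVec, vecMul_transpose]
    have h2 : t ⬝ᵥ ((G * cM (S.Γ i x)) *ᵥ t) = T9b_g G (cM (S.Γ i x) *ᵥ t) t := by
      rw [T9b_g_symm hGs]
      unfold T9b_g
      rw [← mulVec_mulVec]
    have h3 : t ⬝ᵥ (G *ᵥ Dv T (ee i) x) = T9b_g G (Dv T (ee i) x) t := by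
      rw [T9b_g_symm hGs]; rfl
    rw [add_mulVec, dotProduct_add, dotProduct_add, h1, h2, h3, T9b_g_add_left]
    unfold T9b_g
    ring
  -- step 3
  have hN3 : ∀ i, Dv (fun y => T y ⬝ᵥ (cM (S.G y) *ᵥ T y)) (ee i) x =
      2 * A.trace * T9b_g G lam (e i) - 2 * T9b_g G (A *ᵥ lam) (e i) - 2 * d i * A.trace := by
    intro i
    have h1 : (fun y => T y ⬝ᵥ (cM (S.G y) *ᵥ T y)) =ᶠ[𝓝 x] fun y =>
        ((1 / 2 : ℝ) • LinearMap.id : ℂ →ₗ[ℝ] ℂ)
          (T9b_tr (cM (S.L y) - z y • (1 : T9b_M)) * T9b_tr (cM (S.L y) - z y • (1 : T9b_M))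
          - T9b_tr ((cM (S.L y) - z y • (1 : T9b_M)) * (cM (S.L y) - z y • (1 : T9b_M)))) := by
      filter_upwards [hWn] with y hy
      rw [hNtr y hy, T9b_adj_trace]
      simp only [LinearMap.smul_apply, LinearMap.id_apply, Complex.real_smul]
      change _ = ((1 / 2 : ℝ) : ℂ) * ((cM (S.L y) - z y • (1 : T9b_M)).trace *
        (cM (S.L y) - z y • (1 : T9b_M)).trace -
        ((cM (S.L y) - z y • (1 : T9b_M)) * (cM (S.L y) - z y • (1 : T9b_M))).trace)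
      push_cast
      ring
    rw [B0b_Dv_congr h1]
    have h2 := (((((HA (ee i)).lin T9b_tr).bilin T9b_bil_cmul ((HA (ee i)).lin T9b_tr)).sub
      (((HA (ee i)).bilin T9b_bil_mul (HA (ee i))).lin T9b_tr)).lin
        ((1 / 2 : ℝ) • LinearMap.id : ℂ →ₗ[ℝ] ℂ)).eq
    rw [h2]
    have hA' : cM (Dv S.L (ee i) x) - Dv z (ee i) x • (1 : T9b_M) =
        odot G (e i) lam - (cM (S.Γ i x) * A - A * cM (S.Γ i x)) - d i • (1 : T9b_M) := by
      rw [hDL i, hcomm i]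
    rw [hA', ← hA]
    simp only [LinearMap.smul_apply, LinearMap.id_apply, Complex.real_smul]
    change ((1 / 2 : ℝ) : ℂ) *
      ((odot G (e i) lam - (cM (S.Γ i x) * A - A * cM (S.Γ i x)) - d i • (1 : T9b_M)).trace * A.trace
      + A.trace * (odot G (e i) lam - (cM (S.Γ i x) * A - A * cM (S.Γ i x)) - d i • (1 : T9b_M)).trace
      - ((odot G (e i) lam - (cM (S.Γ i x) * A - A * cM (S.Γ i x)) - d i • (1 : T9b_M)) * A
      + A * (odot G (e i) lam - (cM (S.Γ i x) * A - A * cM (S.Γ i x)) - d i • (1 : T9b_M))).trace) = _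
    have h3 : (odot G (e i) lam - (cM (S.Γ i x) * A - A * cM (S.Γ i x)) - d i • (1 : T9b_M)).trace =
        2 * T9b_g G lam (e i) - 3 * d i := by
      have h4 := T9b_trace_mul_odot (G := G) (A := 1) (by rw [transpose_one, one_mul, mul_one]) hGs
        (e i) lam
      rw [one_mul, one_mulVec] at h4
      rw [trace_sub, trace_sub, h4, trace_sub, trace_mul_comm A, sub_self, sub_zero, trace_smul,
        trace_one, smul_eq_mul]
      simp
      ring
    have h5 : (A * (odot G (e i) lam - (cM (S.Γ i x) * A - A * cM (S.Γ i x))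
        - d i • (1 : T9b_M))).trace = 2 * T9b_g G (A *ᵥ lam) (e i) - d i * A.trace := by
      rw [mul_sub, mul_sub, mul_sub, trace_sub, trace_sub, trace_sub, T9b_trace_mul_odot hAsa hGs,
        ← mul_assoc A (cM (S.Γ i x)) A, trace_mul_comm (A * cM (S.Γ i x)) A, sub_self, sub_zero,
        mul_smul_comm, mul_one, trace_smul, smul_eq_mul]
    rw [trace_add, trace_mul_comm _ A, h3, h5]
    push_cast
    ring
  -- step 4
  have hdN : ∀ i, d i * N = 2 * T9b_g G lam t * T9b_g G (e i) t := by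
    intro i
    have h1 := congrArg (fun v => T9b_g G v t) (hAP i)
    have h2 : T9b_g G (A *ᵥ P i) t = 0 := by
      rw [T9b_g_sa hAsa, hAt]
      unfold T9b_g
      rw [mulVec_zero, dotProduct_zero]
    simp only [h2, T9b_g_sub_left, T9b_g_add_left, T9b_g_smul_left] at h1
    change 0 = d i * N - _ at h1
    linear_combination -h1
  -- step 5
  have hCH : ∀ i j, N * T9b_g G (P i) (e j) = T9b_g G (P i) t * T9b_g G (e j) t
      + A.trace * (d i * T9b_g G (e j) t - T9b_g G lam t * T9b_g G (e i) (e j)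
        - T9b_g G (e i) t * T9b_g G lam (e j))
      - (-(T9b_g G lam t * T9b_g G (A *ᵥ e i) (e j)) - T9b_g G (e i) t * T9b_g G (A *ᵥ lam) (e j)) := by
    intro i j
    have h1 := T9b_CH A (P i)
    have h2 : A.adjugate *ᵥ P i = T9b_g G (P i) t • t := by
      have h3 : A.adjugate = vecMulVec t (G *ᵥ t) := hadj x hx
      rw [h3, T9b_vmv]
      unfold T9b_g
      rw [dotProduct_comm]
    have h4 : A.adjugate.trace = N := (hNtr x hx).symm
    rw [h2, h4, hAP i] at h1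
    have h5 := congrArg (fun v => T9b_g G v (e j)) h1
    simp only [mulVec_sub, mulVec_add, mulVec_smul, hAt, smul_zero, T9b_g_sub_left, T9b_g_add_left,
      T9b_g_smul_left, T9b_g_zero_left] at h5
    have h6 : T9b_g G t (e j) = T9b_g G (e j) t := T9b_g_symm hGs _ _
    rw [h6] at h5
    linear_combination h5
  -- step 6
  have hej : ∀ (j : Fin 3) (v : T9b_V), e j ⬝ᵥ v = v j := by
    intro j v
    have h1 : ∀ k, e j k = if k = j then 1 else 0 := by
      intro k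
      change ((ee j k : ℝ) : ℂ) = _
      unfold ee
      rw [Pi.single_apply]
      split_ifs <;> simp
    simp [dotProduct, h1]
  have hgej : ∀ (j : Fin 3) (v : T9b_V), T9b_g G (e j) v = (G *ᵥ v) j := fun j v => hej j _
  have hw : ∀ i j, Dv (fun y => (cM (S.G y) *ᵥ T y) j) (ee i) x =
      ∑ k, (S.Γ i x k j : ℂ) * (G *ᵥ t) k + T9b_g G (P i) (e j) := by
    intro i j
    have h1 := ((HGT (ee i)).lin (LinearMap.proj (R := ℝ) (φ := fun _ : Fin 3 => ℂ) j)).eq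
    have h2 : Dv (fun y => (cM (S.G y) *ᵥ T y) j) (ee i) x =
        (cM (Dv S.G (ee i) x) *ᵥ t + G *ᵥ Dv T (ee i) x) j := h1
    rw [h2, hDG i, T9b_g_symm hGs, hgej]
    have h3 : ((cM (S.Γ i x))ᵀ * G + G * cM (S.Γ i x)) *ᵥ t + G *ᵥ Dv T (ee i) x =
        (cM (S.Γ i x))ᵀ *ᵥ (G *ᵥ t) + G *ᵥ P i := by
      rw [add_mulVec, ← mulVec_mulVec, ← mulVec_mulVec, hP, mulVec_add]
      abel
    rw [h3, Pi.add_apply]
    congr 1
  -- quotient rule
  have hNW : ∀ᶠ y in 𝓝 x, T y ⬝ᵥ (cM (S.G y) *ᵥ T y) ≠ 0 :=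
    (HN 0).diff.continuousAt.eventually_ne hN0
  have hq : ∀ i j, N ^ 2 * Dv (fun y => (cM (S.G y) *ᵥ T y) j / (T y ⬝ᵥ (cM (S.G y) *ᵥ T y))) (ee i) x
      = N * Dv (fun y => (cM (S.G y) *ᵥ T y) j) (ee i) x
        - (G *ᵥ t) j * Dv (fun y => T y ⬝ᵥ (cM (S.G y) *ᵥ T y)) (ee i) x := by
    intro i j
    have hwd : DifferentiableAt ℝ (fun y => (cM (S.G y) *ᵥ T y) j) x :=
      ((HGT 0).lin (LinearMap.proj (R := ℝ) (φ := fun _ : Fin 3 => ℂ) j)).diff
    have hqd : DifferentiableAt ℝ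
        (fun y => (cM (S.G y) *ᵥ T y) j / (T y ⬝ᵥ (cM (S.G y) *ᵥ T y))) x := by
      have h1 : DifferentiableAt ℝ (fun y => (T y ⬝ᵥ (cM (S.G y) *ᵥ T y))⁻¹) x :=
        (HN 0).diff.inv hN0
      have h2 := ((B0b_H_of (v := 0) hwd).bilin T9b_bil_cmul (B0b_H_of h1)).diff
      simpa only [div_eq_mul_inv] using h2
    have h3 := ((B0b_H_of (v := ee i) hqd).bilin T9b_bil_cmul (HN (ee i))).eq
    have h4 : (fun y => (cM (S.G y) *ᵥ T y) j / (T y ⬝ᵥ (cM (S.G y) *ᵥ T y)) *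
        (T y ⬝ᵥ (cM (S.G y) *ᵥ T y))) =ᶠ[𝓝 x] fun y => (cM (S.G y) *ᵥ T y) j := by
      filter_upwards [hNW] with y hy using div_mul_cancel₀ _ hy
    rw [B0b_Dv_congr h4, ← (HN (ee i)).eq] at h3
    change _ = Dv (fun y => (cM (S.G y) *ᵥ T y) j / (T y ⬝ᵥ (cM (S.G y) *ᵥ T y))) (ee i) x * N
      + (G *ᵥ t) j / N * Dv (fun y => T y ⬝ᵥ (cM (S.G y) *ᵥ T y)) (ee i) x at h3
    rw [h3]
    field_simp
    ring
  have hN2 : N ^ 2 ≠ 0 := pow_ne_zero 2 hN0
  apply mul_left_cancel₀ hN2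
  change N ^ 2 * (_ - _) = N ^ 2 * (2 * ∑ k, (eps i j k : ℂ) * ((G *ᵥ t) k / N))
  rw [mul_sub, hq, hq, hw, hw, hdGN, hdGN]
  have hrhs : N ^ 2 * (2 * ∑ k, (eps i j k : ℂ) * ((G *ᵥ t) k / N)) =
      N * (∑ k, (S.Γ i x k j : ℂ) * (G *ᵥ t) k - ∑ k, (S.Γ j x k i : ℂ) * (G *ᵥ t) k) := by
    rw [← Finset.sum_sub_distrib, Finset.mul_sum, Finset.mul_sum, Finset.mul_sum]
    refine Finset.sum_congr rfl fun k _ => ?_
    have h1 : (S.Γ i x k j : ℂ) - (S.Γ j x k i : ℂ) = 2 * (eps i j k : ℂ) := by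
      have h2 := congrArg (fun r : ℝ => (r : ℂ)) (S.torsion x hx0 i j k)
      push_cast at h2
      exact h2
    rw [← sub_mul, h1]
    field_simp
  rw [hrhs]
  have hs : T9b_g G (e j) (e i) = T9b_g G (e i) (e j) := T9b_g_symm hGs _ _
  have hr : T9b_g G (A *ᵥ e j) (e i) = T9b_g G (A *ᵥ e i) (e j) := by
    rw [T9b_g_sa hAsa, T9b_g_symm hGs]
  have e1 := hCH i j
  have e1' := hCH j i
  rw [hs, hr] at e1'
  have hfin := T9b_alg hN0 e1 e1' (hdGN i) (hdGN j) (hN3 i) (hN3 j) (hdN i) (hdN j)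
  rw [hdGN, hdGN, hgej, hgej] at hfin
  linear_combination hfin

end Pool.Agent.helper68.B2
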